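import Pool.Agent.Helper63.D4.Sheet
import Pool.Agent.Helper59.PL.DS1

/-! Rows CL1, CL2, CL3, CL4 of the sheet D4 (MP_fcb106_co): the class of the deficits. -/

set_option autoImplicit false

namespace Pool.Agent.Helper85.D4

open Finset Pool.Agent.Helper33.DP Pool.Agent.Helper63.D4

/-- the bound increases up to `w` -/
theorem phi_mono {w j k : ℕ} (h1 : j ≤ k) (h2 : k ≤ w) :
    (2 * j * (2 * w - j) : ℝ) ≤ 2 * k * (2 * w - k) := by
  have h3 : (j : ℝ) ≤ k := by exact_mod_cast h1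
  have h4 : (k : ℝ) ≤ w := by exact_mod_cast h2
  nlinarith [mul_nonneg (sub_nonneg.2 h3) (sub_nonneg.2 h4),
    mul_nonneg (sub_nonneg.2 h3) (sub_nonneg.2 (h3.trans h4))]

theorem card_le_w {w : ℕ} (S : Finset (Fin w)) : S.card ≤ w := by
  have := card_le_univ S
  rwa [Fintype.card_fin] at this

theorem CL1 : ST_CL1 := by
  intro w P g h0 hr hc hg
  refine ⟨fun x => sum_nonneg fun b _ => mul_nonneg (h0 x b) (hg.1 b), fun S => ?_⟩
  have hD : (Matrix.of P) ∈ doublyStochastic ℝ (Fin w) := by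
    rw [mem_doublyStochastic_iff_sum]
    exact ⟨fun i j => h0 i j, fun i => hr i, fun j => hc j⟩
  obtain ⟨θ, t0, t1, -, -, tf⟩ := Pool.Agent.Helper59.PL.birk hD
  have e1 := tf (fun a b => if a ∈ S then g b else 0)
  have e2 : ∑ a, ∑ b, (Matrix.of P) a b * (if a ∈ S then g b else 0) =
      ∑ x ∈ S, ∑ b, P x b * g b := by
    rw [← sum_filter_add_sum_filter_not univ (fun a => a ∈ S)]
    have z : ∑ a ∈ univ.filter (fun a => ¬ a ∈ S),
        ∑ b, (Matrix.of P) a b * (if a ∈ S then g b else 0) = 0 := by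
      refine sum_eq_zero fun a ha => sum_eq_zero fun b _ => ?_
      rw [if_neg (mem_filter.1 ha).2, mul_zero]
    rw [z, add_zero, filter_mem_eq_inter, univ_inter]
    refine sum_congr rfl fun a ha => sum_congr rfl fun b _ => ?_
    rw [if_pos ha]
    rfl
  rw [e2] at e1
  rw [e1]
  have h1 : ∀ σ : Equiv.Perm (Fin w), ∑ a, (if a ∈ S then g (σ a) else 0) ≤
      2 * (S.card : ℝ) * (2 * w - S.card : ℝ) := by
    intro σ
    have e3 : ∑ a, (if a ∈ S then g (σ a) else 0) = ∑ x ∈ S.map σ.toEmbedding, g x := by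
      rw [sum_map, ← sum_filter, filter_mem_eq_inter, univ_inter]
      rfl
    rw [e3]
    have := hg.2 (S.map σ.toEmbedding)
    rwa [card_map] at this
  calc ∑ σ, θ σ * ∑ a, (if a ∈ S then g (σ a) else 0)
      ≤ ∑ σ, θ σ * (2 * (S.card : ℝ) * (2 * w - S.card : ℝ)) :=
        sum_le_sum fun σ _ => mul_le_mul_of_nonneg_left (h1 σ) (t0 σ)
    _ = _ := by rw [← sum_mul, t1, one_mul]

theorem CL2 : ST_CL2 := by
  intro w c g h0 h1 hg
  refine ⟨fun x => sum_nonneg fun b _ => mul_nonneg (h0 b) ((hg b).1 x), fun S => ?_⟩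
  rw [sum_comm]
  simp_rw [← mul_sum]
  calc ∑ b, c b * ∑ a ∈ S, g b a
      ≤ ∑ b, c b * (2 * (S.card : ℝ) * (2 * w - S.card : ℝ)) :=
        sum_le_sum fun b _ => mul_le_mul_of_nonneg_left ((hg b).2 S) (h0 b)
    _ = _ := by rw [← sum_mul, h1, one_mul]

/-- the sum of the positive parts -/
theorem sum_pos_part {w : ℕ} (S : Finset (Fin w)) (h : Fin w → ℝ) :
    ∑ x ∈ S, max (h x) 0 = ∑ x ∈ S.filter (fun x => 0 < h x), h x := by
  rw [sum_filter]
  refine sum_congr rfl fun x _ => ?_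
  split_ifs with h1
  · exact max_eq_left h1.le
  · exact max_eq_right (not_lt.1 h1)

theorem CL3 : ST_CL3 := by
  intro w h hh
  refine ⟨fun x => le_max_right _ _, fun S => ?_⟩
  rw [sum_pos_part]
  exact (hh _).trans (phi_mono (card_filter_le _ _) (card_le_w S))

theorem CL4 : ST_CL4 := by
  intro w T E q ν hq hET hT hν hν0
  refine ⟨fun x => by dsimp only; split_ifs; exacts [le_max_right _ _, le_rfl], fun S => ?_⟩
  set n := T.card with hn
  set h : Fin w → ℝ := fun x => (∑ a ∈ E, q a) / n + ∑ a ∈ E, ν a x with hh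
  have e1 : ∑ x ∈ S, (if x ∈ T then max ((∑ a ∈ E, q a) / n + ∑ a ∈ E, ν a x) 0 else 0) =
      ∑ x ∈ (S.filter (fun x => x ∈ T)).filter (fun x => 0 < h x), h x := by
    rw [← sum_filter, ← sum_pos_part]
  rw [e1]
  set S' := (S.filter (fun x => x ∈ T)).filter (fun x => 0 < h x) with hS'
  have hS'T : S' ⊆ T := fun x hx => (mem_filter.1 (mem_filter.1 hx).1).2
  have hS'S : S' ⊆ S := fun x hx => (mem_filter.1 (mem_filter.1 hx).1).1
  have hj : S'.card ≤ n := card_le_card hS'T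
  have hjr : (S'.card : ℝ) ≤ n := by exact_mod_cast hj
  have hn1 : (1 : ℝ) ≤ n := by exact_mod_cast hT
  refine le_trans ?_ (phi_mono (card_le_card hS'S) (card_le_w S))
  have e2 : ∑ x ∈ S', h x = S'.card * ((∑ a ∈ E, q a) / n) + ∑ a ∈ E, ∑ x ∈ S', ν a x := by
    rw [hh, sum_add_distrib, sum_const, nsmul_eq_mul, sum_comm]
  rw [e2]
  have hqE := hq.2 E
  rw [hET] at hqE
  have h1 : (S'.card : ℝ) * ((∑ a ∈ E, q a) / n) ≤ S'.card * (2 * (2 * w - n)) := by
    refine mul_le_mul_of_nonneg_left ?_ (Nat.cast_nonneg _)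
    rw [div_le_iff₀ (by linarith)]
    linarith
  have h2 : ∀ a ∈ E, ∑ x ∈ S', ν a x ≤ S'.card := by
    intro a ha
    calc ∑ x ∈ S', ν a x ≤ ∑ x ∈ S', (1 : ℝ) :=
          sum_le_sum fun x hx => (abs_le.1 (hν a ha x (hS'T hx))).2
      _ = _ := by simp
  have h3 : ∀ a ∈ E, ∑ x ∈ S', ν a x ≤ n - S'.card := by
    intro a ha
    have h4 : ∑ x ∈ T \ S', ν a x + ∑ x ∈ S', ν a x = 0 := by
      rw [sum_sdiff hS'T, hν0 a ha]
    have h5 : ∑ x ∈ T \ S', (-1 : ℝ) ≤ ∑ x ∈ T \ S', ν a x :=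
      sum_le_sum fun x hx => (abs_le.1 (hν a ha x (mem_sdiff.1 hx).1)).1
    rw [sum_const, card_sdiff_of_subset hS'T, nsmul_eq_mul, Nat.cast_sub hj] at h5
    linarith
  have h6 : ∑ a ∈ E, ∑ x ∈ S', ν a x ≤ 2 * S'.card * (n - S'.card) := by
    rcases le_total (2 * (S'.card : ℝ)) n with h | h
    · calc ∑ a ∈ E, ∑ x ∈ S', ν a x ≤ ∑ a ∈ E, (S'.card : ℝ) := sum_le_sum h2
        _ = n * S'.card := by rw [sum_const, nsmul_eq_mul, hET]
        _ ≤ _ := by nlinarith [mul_nonneg (Nat.cast_nonneg (α := ℝ) S'.card) (sub_nonneg.2 h)]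
    · calc ∑ a ∈ E, ∑ x ∈ S', ν a x ≤ ∑ a ∈ E, ((n : ℝ) - S'.card) := sum_le_sum h3
        _ = n * (n - S'.card) := by rw [sum_const, nsmul_eq_mul, hET]
        _ ≤ _ := by nlinarith [mul_nonneg (sub_nonneg.2 hjr) (sub_nonneg.2 h)]
  nlinarith [h1, h6]

end Pool.Agent.Helper85.D4
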