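import Pool.Agent.Helper63.D4.Sheet
import Pool.Agent.Helper95.PL.LR

/-! Row LR4 of the sheet D4 (MP_fcb106_co): feedback rounding for one-sided deficits. -/

set_option autoImplicit false

namespace Pool.Agent.Helper85.D4

open Finset Pool.Agent.Helper33.DP Pool.Agent.Helper63.D4 Pool.Agent.Helper95.PL

/-- the class without signs -/
def Wk {w : ℕ} (g : Fin w → ℝ) : Prop :=
  ∀ S : Finset (Fin w), ∑ x ∈ S, g x ≤ 2 * S.card * (2 * w - S.card : ℝ)

/-- an exchange against the current error -/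
theorem Wk_ex {w : ℕ} {g : Fin w → ℝ} (hg : Wk g) {x x' : Fin w} {η : ℝ} (h0 : 0 ≤ η)
    (h1 : η ≤ 1) (hle : g x ≤ g x') : Wk (fun z => g z + ex x x' η z) := by
  intro S
  rw [sum_add_distrib, sum_ex]
  have hS := hg S
  by_cases hxS : x ∈ S
  · by_cases hx'S : x' ∈ S
    · simpa [hxS, hx'S] using hS
    · rw [if_pos hxS, if_neg hx'S]
      have h2 := hg (S.erase x)
      have h3 := hg (insert x' S)
      have e2 : ∑ z ∈ S.erase x, g z = ∑ z ∈ S, g z - g x := by
        have := sum_erase_add S g hxS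
        linarith
      have e3 : ∑ z ∈ insert x' S, g z = g x' + ∑ z ∈ S, g z := sum_insert hx'S
      have hc : 1 ≤ S.card := card_pos.2 ⟨x, hxS⟩
      rw [e2, card_erase_of_mem hxS, Nat.cast_sub hc] at h2
      rw [e3, card_insert_of_notMem hx'S] at h3
      push_cast at h2 h3
      nlinarith
  · rw [if_neg hxS]
    have : 0 ≤ (if x' ∈ S then η else 0) := by split_ifs <;> linarith
    linarith

theorem lr4_core {w : ℕ} (n : Fin w → ℕ) : ∀ (N : ℕ) (g : Fin w → ℝ) (y : Fin w → Fin w → ℝ),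
    NI y = N → Wk g → (∀ b x, 0 ≤ y b x) → (∀ b, ∑ x, y b x = n b) →
    ∃ y' : Fin w → Fin w → ℕ, (∀ b, ∑ x, y' b x = n b) ∧
      (∀ b x, ⌊y b x⌋₊ ≤ y' b x ∧ y' b x ≤ ⌈y b x⌉₊) ∧
      Wk (fun x => g x + ∑ b, (y b x - (y' b x : ℝ))) := by
  intro N
  induction N using Nat.strong_induction_on with
  | _ N ih =>
  intro g y hN hg h0 hs
  by_cases hall : ∀ b x, ∃ k : ℕ, y b x = k
  · choose k hk using hall
    refine ⟨k, fun b => ?_, fun b x => ?_, ?_⟩
    · have := hs b
      simp_rw [hk] at this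
      exact_mod_cast this
    · rw [hk, Nat.floor_natCast, Nat.ceil_natCast]
      exact ⟨le_rfl, le_rfl⟩
    · simp_rw [hk]
      simpa using hg
  · push Not at hall
    obtain ⟨b, x₀, hx₀⟩ := hall
    obtain ⟨x₁, hne, hx₁⟩ := exists_second (h0 b) (hs b) hx₀
    -- choose the order
    obtain ⟨x, x', hxx, hnx, hnx', hle⟩ : ∃ x x' : Fin w, x ≠ x' ∧ (∀ k : ℕ, y b x ≠ k) ∧
        (∀ k : ℕ, y b x' ≠ k) ∧ g x' ≤ g x := by
      rcases le_total (g x₀) (g x₁) with h | h
      · exact ⟨x₁, x₀, hne.symm, hx₁, hx₀, h⟩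
      · exact ⟨x₀, x₁, hne, hx₀, hx₁, h⟩
    set η : ℝ := min ((⌈y b x⌉₊ : ℝ) - y b x) (y b x' - (⌊y b x'⌋₊ : ℝ)) with hη
    have hc1 : y b x < ⌈y b x⌉₊ := lt_of_le_of_ne (Nat.le_ceil _) (hnx _)
    have hf1 : (⌊y b x'⌋₊ : ℝ) < y b x' := lt_of_le_of_ne (Nat.floor_le (h0 _ _)) (hnx' _).symm
    have hc2 : (⌈y b x⌉₊ : ℝ) < y b x + 1 := Nat.ceil_lt_add_one (h0 _ _)
    have hη0 : 0 < η := lt_min (by linarith) (by linarith)
    have hη1 : η ≤ 1 := (min_le_left _ _).trans (by linarith)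
    have hηc : η ≤ (⌈y b x⌉₊ : ℝ) - y b x := min_le_left _ _
    have hηf : η ≤ y b x' - (⌊y b x'⌋₊ : ℝ) := min_le_right _ _
    set y₁ : Fin w → Fin w → ℝ := fun b' z => if b' = b then y b z + ex x x' η z else y b' z
      with hy₁
    have hbx : y₁ b x = y b x + η := by simp [hy₁, ex, hxx]
    have hbx' : y₁ b x' = y b x' - η := by
      simp [hy₁, ex, hxx.symm]
      ring
    have hbz : ∀ z, z ≠ x → z ≠ x' → y₁ b z = y b z := by
      intro z h1 h2
      simp [hy₁, ex, h1, h2]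
    have hb'z : ∀ b' z, b' ≠ b → y₁ b' z = y b' z := by
      intro b' z h1
      simp [hy₁, h1]
    -- bounds
    have hbd : ∀ b' z, (⌊y b' z⌋₊ : ℝ) ≤ y₁ b' z ∧ y₁ b' z ≤ (⌈y b' z⌉₊ : ℝ) := by
      intro b' z
      by_cases h1 : b' = b
      · subst h1
        by_cases h2 : z = x
        · subst h2
          rw [hbx]
          exact ⟨(Nat.floor_le (h0 _ _)).trans (by linarith), by linarith⟩
        · by_cases h3 : z = x'
          · subst h3
            rw [hbx']
            exact ⟨by linarith, (by linarith : y b' z - η ≤ y b' z).trans (Nat.le_ceil _)⟩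
          · rw [hbz z h2 h3]
            exact ⟨Nat.floor_le (h0 _ _), Nat.le_ceil _⟩
      · rw [hb'z b' z h1]
        exact ⟨Nat.floor_le (h0 _ _), Nat.le_ceil _⟩
    have hnn : ∀ b' z, 0 ≤ y₁ b' z := fun b' z => (Nat.cast_nonneg _).trans (hbd b' z).1
    have hsum : ∀ b', ∑ z, y₁ b' z = n b' := by
      intro b'
      by_cases h1 : b' = b
      · subst h1
        have : ∀ z, y₁ b' z = y b' z + ex x x' η z := fun z => by simp [hy₁]
        simp_rw [this]
        rw [sum_add_distrib, sum_ex, hs]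
        simp
      · simp_rw [hb'z b' _ h1]
        exact hs b'
    have hint : ∀ b' z k, y b' z = ((k : ℕ) : ℝ) → ∃ k' : ℕ, y₁ b' z = k' := by
      intro b' z k hk
      by_cases h1 : b' = b
      · subst h1
        have h2 : z ≠ x := fun h => hnx k (h ▸ hk)
        have h3 : z ≠ x' := fun h => hnx' k (h ▸ hk)
        exact ⟨k, by rw [hbz z h2 h3, hk]⟩
      · exact ⟨k, by rw [hb'z b' z h1, hk]⟩
    have hlt : NI y₁ < N := by
      rw [← hN]
      rcases min_choice ((⌈y b x⌉₊ : ℝ) - y b x) (y b x' - (⌊y b x'⌋₊ : ℝ)) with h | h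
      · refine NI_lt hint hnx (k := ⌈y b x⌉₊) ?_
        rw [hbx, hη, h]
        ring
      · refine NI_lt hint hnx' (k := ⌊y b x'⌋₊) ?_
        rw [hbx', hη, h]
        ring
    have hWk : Wk (fun z => g z + ex x' x η z) := Wk_ex hg hη0.le hη1 hle
    obtain ⟨y', hy's, hy'b, hy'B⟩ := ih (NI y₁) hlt _ y₁ rfl hWk hnn hsum
    refine ⟨y', hy's, fun b' z => ⟨?_, ?_⟩, ?_⟩
    · exact (Nat.le_floor (hbd b' z).1).trans (hy'b b' z).1
    · exact (hy'b b' z).2.trans (Nat.ceil_le.2 (hbd b' z).2)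
    · have e : (fun z => g z + ex x' x η z + ∑ b', (y₁ b' z - (y' b' z : ℝ))) =
          fun z => g z + ∑ b', (y b' z - (y' b' z : ℝ)) := by
        funext z
        have h1 : ∑ b', y₁ b' z = ∑ b', y b' z + ex x x' η z := by
          have h2 : ∀ b', y₁ b' z = y b' z + if b' = b then ex x x' η z else 0 := by
            intro b'
            by_cases h3 : b' = b
            · subst h3; simp [hy₁]
            · simp [hy₁, h3]
          simp_rw [h2]
          rw [sum_add_distrib, sum_ite_eq']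
          simp
        have h4 : ex x' x η z = - ex x x' η z := by
          unfold ex
          ring
        rw [sum_sub_distrib, sum_sub_distrib, h1, h4]
        ring
      rw [e] at hy'B
      exact hy'B

theorem LR4 : ST_LR4 := by
  intro w g y n hg h0 hs
  obtain ⟨y', h1, h2, h3⟩ := lr4_core n (NI y) g y rfl hg.2 h0 hs
  refine ⟨y', h1, fun b x => ?_, fun b x h => ?_, h3⟩
  · have h4 : ((⌊y b x⌋₊ : ℕ) : ℝ) ≤ y' b x := by exact_mod_cast (h2 b x).1
    have h5 : (y' b x : ℝ) ≤ (⌈y b x⌉₊ : ℕ) := by exact_mod_cast (h2 b x).2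
    have h6 : (⌈y b x⌉₊ : ℝ) < y b x + 1 := Nat.ceil_lt_add_one (h0 _ _)
    have h7 : y b x < ⌊y b x⌋₊ + 1 := Nat.lt_floor_add_one _
    rw [abs_lt]
    constructor <;> linarith
  · have := (h2 b x).2
    rw [h, Nat.ceil_zero] at this
    exact Nat.le_zero.1 this

end Pool.Agent.Helper85.D4
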