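import Pool.Agent.Helper63.D4.Sheet
import Pool.Agent.Helper6.PL.C

/-! Rows B4 and C4 of the sheet D4 (MP_fcb106_co). -/

set_option autoImplicit false

namespace Pool.Agent.Helper85.D4

open Finset Pool.Agent.Helper33.DP Pool.Agent.Helper63.D4 Pool.Agent.Helper6.PL

/-- the potential decreases when the masses increase -/
theorem Bdd_mono {w : ℕ} {G : Gr w} {ρ ρ' : Fin w → Fin w → ℝ} {β : ℝ} (h : Bdd G ρ β)
    (hle : ∀ a b, (a, b) ∈ G → ρ a b ≤ ρ' a b) : Bdd G ρ' β where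
  pos a b hab := (h.pos a b hab).trans_le (hle a b hab)
  le σ hσ := (sum_le_sum fun i _ =>
    inv_anti₀ (h.pos i (σ i) (hσ i)) (hle i (σ i) (hσ i))).trans (h.le σ hσ)

/-- the end of a step, when `G₁` is as large as `G` -/
theorem step_of {w : ℕ} (hMB : ST_MB) {G G₁ G₂ : Gr w} {μ : Fin w → Fin w → ℕ}
    {R C P : Fin w → Fin w → ℝ} {T E : Fin w → Finset (Fin w)} (h1 : IsCore G₁) (h2 : IsCore G₂)
    (hcomp : comp G₁ G₂ = G) (hst : ∀ a x b, (a, b) ∈ G → (x, b) ∈ G₂ → (a, x) ∈ G₁)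
    (hBlk : Blk G G₁ G₂ T E) (hμ : ∀ a b, (a, b) ∉ G → μ a b = 0) (hR : ∀ a, Cl (R a))
    (hC : ∀ b, Cl (fun a => C a b))
    (hB : Bdd G (fun a b => (μ a b : ℝ) + R a b + C a b) (1 / g4 w G.card))
    (k1 : G₁.card = G.card) (hP : DS G₂ P)
    (hP2 : Bdd G₂ (fun x b => P x b * (∑ a ∈ E b, (μ a b : ℝ)) +
      (∑ a ∈ E b, (R a b + C a b)) / (T b).card) (1 / g4 w G₂.card)) : StepC4 G₁ G₂ μ := by
  obtain ⟨z, hz, ⟨R₁, C₁, r1, c1, b1⟩, R₂, C₂, r2, c2, b2⟩ := hMB w G G₁ G₂ μ R C P T E _ h1 h2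
    hcomp hst hBlk hμ hR hC hB hP
  have hzn : ∀ a x b, ¬ ((a, x) ∈ G₁ ∧ (x, b) ∈ G₂) → z a x b = 0 := fun a x b hn => by
    by_contra hc
    exact hn (hz.supp a x b hc)
  refine ⟨z, hz, ⟨fun a x hax => ?_, R₁, C₁, r1, c1, ?_⟩, ⟨fun x b hxb => ?_, R₂, C₂, r2, c2, ?_⟩⟩
  · exact Finset.sum_eq_zero fun b _ => hzn a x b fun hc => hax hc.1
  · rw [k1]
    exact b1
  · exact Finset.sum_eq_zero fun a _ => hzn a x b fun hc => hxb hc.2
  · exact Bdd_mono hP2 b2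

theorem B4 (hSTR : ST_STR) (hGB : ST_GB4) (hBL : ST_BL) (hPEX : ST_PEX4) (hMB : ST_MB) :
    ST_B4 := by
  intro w G G₁ G₂ μ hw hG hG₁ hG₂ hsub hgood k1 k2
  obtain ⟨⟨-, s1⟩, -⟩ := hSTR w G G₁ G₂ hG₁ hG₂ hsub
  obtain ⟨hcomp, hst⟩ := s1 k1
  have hge := hGB w G μ hw hG hgood
  obtain ⟨hμ, R, C, hR, hC, hB⟩ := hgood
  obtain ⟨T, E, hBlk, hbl⟩ := hBL w G G₁ G₂ hG₁ hG₂ hcomp hst
  have hw0 : (1 : ℝ) ≤ w := by exact_mod_cast hw
  have hTpos : ∀ b, (0 : ℝ) < (T b).card := fun b => by exact_mod_cast hBlk.pos b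
  have hEne : ∀ b, (E b).Nonempty := fun b => by
    rw [← Finset.card_pos, hBlk.card b]
    exact hBlk.pos b
  have hs : ∀ b, 0 < ∑ a ∈ E b, (μ a b : ℝ) := fun b =>
    Finset.sum_pos (fun a ha => by
      have := hge a b (hBlk.left a b ha)
      have h1 : (1 : ℝ) ≤ μ a b := by exact_mod_cast this
      linarith) (hEne b)
  have he : ∀ b, 0 ≤ (∑ a ∈ E b, (R a b + C a b)) / (T b).card := fun b =>
    div_nonneg (Finset.sum_nonneg fun a _ => add_nonneg ((hR a).1 b) ((hC b).1 a)) (hTpos b).le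
  obtain ⟨P, hP, hP2⟩ := hPEX w G₂ (fun b => ∑ a ∈ E b, (μ a b : ℝ))
    (fun b => (∑ a ∈ E b, (R a b + C a b)) / (T b).card) (fun b => (T b).card)
    (1 / g4 w G.card) (1 / g4 w G₂.card) hw hG₂ hs he
    (fun b => Finset.card_le_card fun x hx => hBlk.mem x b (Finset.mem_filter.1 hx).2) (by
      refine le_trans (le_of_eq ?_) (hbl _ _ hB)
      refine Finset.sum_congr rfl fun b _ => ?_
      rw [mul_div_cancel₀ _ (hTpos b).ne', ← Finset.sum_add_distrib]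
      congr 1
      exact Finset.sum_congr rfl fun a _ => by ring) (by
      have h1 : ((G₂.card : ℕ) : ℝ) < G.card := by exact_mod_cast k2
      have h2 : (0 : ℝ) ≤ G₂.card := Nat.cast_nonneg _
      unfold g4
      exact one_div_lt_one_div_of_lt (by linarith) (by linarith))
  exact step_of hMB hG₁ hG₂ hcomp hst hBlk hμ hR hC hB k1 hP hP2

theorem C4 (hSTR : ST_STR) (hBL : ST_BL) (hMB : ST_MB) : ST_C4 := by
  intro w G G₁ G₂ μ _ _ hG₁ hG₂ hsub hgood k1 k2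
  obtain ⟨⟨-, s1⟩, ⟨-, s2⟩⟩ := hSTR w G G₁ G₂ hG₁ hG₂ hsub
  have h : CC G G₁ G₂ := ⟨hG₁, hG₂, hsub, (s1 k1).2, (s2 k2).2, k1, k2⟩
  obtain ⟨hcomp, hst⟩ := s1 k1
  obtain ⟨hμ, R, C, hR, hC, hB⟩ := hgood
  obtain ⟨T, E, hBlk, hbl⟩ := hBL w G G₁ G₂ hG₁ hG₂ hcomp hst
  have hTpos : ∀ b, (0 : ℝ) < (T b).card := fun b => by exact_mod_cast hBlk.pos b
  have hEne : ∀ b, (E b).Nonempty := fun b => by
    rw [← Finset.card_pos, hBlk.card b]
    exact hBlk.pos b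
  have hT : ∀ b, T b = nC G₂ b := fun b => by
    ext x
    rw [mem_nC]
    refine ⟨fun hx => ?_, fun hx => hBlk.mem x b hx⟩
    obtain ⟨a, ha⟩ := hEne b
    have hab := hBlk.left a b ha
    exact h.st2 a x b hab (hBlk.right a x b hab hx)
  have hm : ∀ b, 0 < ∑ a ∈ E b, ((μ a b : ℝ) + R a b + C a b) := fun b =>
    Finset.sum_pos (fun a ha => hB.pos a b (hBlk.left a b ha)) (hEne b)
  have hv : ∀ x b, (x, b) ∈ G₂ → PP G₂ x b * (∑ a ∈ E b, (μ a b : ℝ)) +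
      (∑ a ∈ E b, (R a b + C a b)) / (T b).card =
      (∑ a ∈ E b, ((μ a b : ℝ) + R a b + C a b)) / (T b).card := by
    intro x b hxb
    unfold PP
    rw [if_pos hxb, ← hT b, ← div_eq_inv_mul, ← add_div, ← Finset.sum_add_distrib]
    congr 1
    exact Finset.sum_congr rfl fun a _ => by ring
  refine step_of hMB hG₁ hG₂ hcomp hst hBlk hμ hR hC hB k1 h.dsP ⟨fun x b hxb => ?_,
    fun σ hσ => ?_⟩
  · show 0 < PP G₂ x b * (∑ a ∈ E b, (μ a b : ℝ)) + (∑ a ∈ E b, (R a b + C a b)) / (T b).card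
    rw [hv x b hxb]
    exact div_pos (hm b) (hTpos b)
  · rw [k2]
    refine le_trans (le_of_eq ?_) (hbl _ _ hB)
    rw [← Equiv.sum_comp σ (fun b => ((T b).card : ℝ) / ∑ a ∈ E b, ((μ a b : ℝ) + R a b + C a b))]
    refine Finset.sum_congr rfl fun x _ => ?_
    show (PP G₂ x (σ x) * (∑ a ∈ E (σ x), (μ a (σ x) : ℝ)) +
      (∑ a ∈ E (σ x), (R a (σ x) + C a (σ x))) / (T (σ x)).card)⁻¹ = _
    rw [hv x (σ x) (hσ x), inv_div]

end Pool.Agent.Helper85.D4
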